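import Pool.Agent.Y127.A.Conv

/-!
# Stable subspaces and the Zariski closure
-/

set_option autoImplicit false
set_option linter.unusedSectionVars false

namespace Pool.Agent.Y127.A

open MvPolynomial Matrix Pool.Agent.W528.ZC Pool.Agent.Y95.MT

noncomputable section

variable {K L : Type} [Field K] [Field L] {n : ℕ}

theorem mem_of_vanish (i : K →+* L) {W : Submodule K (Fin n → K)}
    {S : Set (Matrix (Fin n) (Fin n) K)} (hS : ∀ h ∈ S, ∀ w ∈ W, h *ᵥ w ∈ W)
    {g : Matrix (Fin n) (Fin n) K}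
    (hg : ∀ f : MvPolynomial (Fin n × Fin n) L, (∀ h ∈ S, ev (h.map i) f = 0) →
      ev (g.map i) f = 0) : ∀ w ∈ W, g *ᵥ w ∈ W := by
  intro w hw
  by_contra hcon
  obtain ⟨φ, hφ, hφW⟩ := Submodule.exists_dual_map_eq_bot_of_notMem hcon inferInstance
  have hφ0 : ∀ x ∈ W, φ x = 0 := by
    intro x hx
    have h1 : φ x ∈ W.map φ := Submodule.mem_map_of_mem hx
    rw [hφW] at h1
    exact (Submodule.mem_bot K).1 h1
  let f : MvPolynomial (Fin n × Fin n) L :=
    ∑ a, ∑ b, C (i (φ (Pi.single a 1) * w b)) * X (a, b)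
  have hf : ∀ h : Matrix (Fin n) (Fin n) K, ev (h.map i) f = i (φ (h *ᵥ w)) := by
    intro h
    have h1 : h *ᵥ w = ∑ a, ((h *ᵥ w) a) • (Pi.single a (1 : K) : Fin n → K) := by
      funext b
      simp [Finset.sum_apply, Pi.single_apply]
    rw [h1, map_sum, map_sum]
    simp only [f, map_sum, map_mul, ev, aeval_C, aeval_X, Matrix.map_apply, map_smul, smul_eq_mul,
      Matrix.mulVec, dotProduct, Finset.sum_mul, Algebra.algebraMap_self, RingHom.id_apply]
    refine Finset.sum_congr rfl fun a _ => Finset.sum_congr rfl fun b _ => ?_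
    ring
  have h1 := hg f fun h hh => by rw [hf, hφ0 _ (hS h hh w hw), map_zero]
  rw [hf] at h1
  exact hφ ((map_eq_zero i).1 h1)

end

end Pool.Agent.Y127.A
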