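import Pool.Agent.Y127.A.Ful

/-!
# Irreducibility of the special orthogonal group
-/

set_option autoImplicit false
set_option linter.unusedSectionVars false

namespace Pool.Agent.Y127.A

open MvPolynomial Matrix Pool.Agent.W528.ZC Pool.Agent.Y95.MT

noncomputable section

section eqs

variable {K : Type} [Field K] {n : ℕ}

/-- the equations of the special orthogonal group -/
theorem isom_of_closure {B : Matrix (Fin n) (Fin n) K} {S : Set (Matrix (Fin n) (Fin n) K)}
    (hS : ∀ h ∈ S, hᵀ * B * h = B ∧ h.det = 1) {g : Matrix (Fin n) (Fin n) K}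
    (hg : ∀ f : MvPolynomial (Fin n × Fin n) K, (∀ h ∈ S, ev h f = 0) → ev g f = 0) :
    gᵀ * B * g = B ∧ g.det = 1 := by
  have hev : ∀ h : Matrix (Fin n) (Fin n) K, (mvPolynomialX (Fin n) (Fin n) K).map (ev h) = h := by
    intro h
    ext a b
    simp [mvPolynomialX_apply, ev]
  have hC : ∀ h : Matrix (Fin n) (Fin n) K, (B.map C).map (ev h) = B := by
    intro h
    ext a b
    simp [ev]
  obtain ⟨P, hP⟩ : ∃ P : Matrix (Fin n) (Fin n) (MvPolynomial (Fin n × Fin n) K),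
    P = (mvPolynomialX (Fin n) (Fin n) K)ᵀ * B.map C * mvPolynomialX (Fin n) (Fin n) K - B.map C :=
    ⟨_, rfl⟩
  have hPe : ∀ (h : Matrix (Fin n) (Fin n) K) (a b : Fin n),
      ev h (P a b) = (hᵀ * B * h - B) a b := by
    intro h a b
    have h3 : P.map (ev h) = hᵀ * B * h - B := by
      rw [hP, Matrix.map_sub _ (map_sub (ev h)), Matrix.map_mul, Matrix.map_mul,
        Matrix.transpose_map, hev, hC]
    rw [← h3]
    rfl
  constructor
  · ext a b
    have h1 := hg (P a b) (fun h hh => by rw [hPe, (hS h hh).1, sub_self, Matrix.zero_apply])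
    rw [hPe, Matrix.sub_apply, sub_eq_zero] at h1
    exact h1
  · have h2 : ∀ h : Matrix (Fin n) (Fin n) K,
        ev h ((mvPolynomialX (Fin n) (Fin n) K).det - 1) = h.det - 1 := by
      intro h
      rw [map_sub, map_one]
      congr 1
      have h3 : ev h (mvPolynomialX (Fin n) (Fin n) K).det =
          ((mvPolynomialX (Fin n) (Fin n) K).map (ev h)).det := AlgHom.map_det (ev h) _
      rw [h3, hev]
    have h1 := hg ((mvPolynomialX (Fin n) (Fin n) K).det - 1) fun h hh => by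
      rw [h2, (hS h hh).2, sub_self]
    rw [h2, sub_eq_zero] at h1
    exact h1

/-- a subspace which is stable under all `wd x y` -/
theorem irr_wd {B : Matrix (Fin n) (Fin n) K} (hB : Bᵀ = B) (hd : B.det ≠ 0) (hn : 3 ≤ n)
    {W : Submodule K (Fin n → K)} (hW : ∀ x y, ∀ w ∈ W, wd B x y *ᵥ w ∈ W) : W = ⊥ ∨ W = ⊤ := by
  have hwd : ∀ x y w : Fin n → K, wd B x y *ᵥ w = ((B *ᵥ y) ⬝ᵥ w) • x - ((B *ᵥ x) ⬝ᵥ w) • y := by
    intro x y w
    unfold wd
    rw [sub_mulVec, vecMulVec_mulVec, vecMulVec_mulVec]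
    funext a
    simp
  by_cases h0 : W = ⊥
  · exact Or.inl h0
  right
  obtain ⟨w, hw, hw0⟩ := (Submodule.ne_bot_iff W).1 h0
  -- a vector with product one
  have hsurj : ∀ w : Fin n → K, w ≠ 0 → ∃ y, (B *ᵥ y) ⬝ᵥ w = 1 := by
    intro w hw0
    by_contra hcon
    push Not at hcon
    have h1 : ∀ y, (B *ᵥ y) ⬝ᵥ w = 0 := by
      intro y
      by_contra h2
      refine hcon (((B *ᵥ y) ⬝ᵥ w)⁻¹ • y) ?_
      rw [mulVec_smul, smul_dotProduct, smul_eq_mul, inv_mul_cancel₀ h2]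
    have h2 : B *ᵥ w = 0 := by
      funext a
      have h3 := h1 (Pi.single a 1)
      rw [dotProduct_comm, dotProduct_mulVec, ← mulVec_transpose, hB, dotProduct_comm,
        single_one_dotProduct] at h3
      exact h3
    exact hw0 (by
      have h3 := Matrix.eq_zero_of_mulVec_eq_zero hd h2
      exact h3)
  obtain ⟨y, hy⟩ := hsurj w hw0
  have hstar : ∀ x, x - ((B *ᵥ x) ⬝ᵥ w) • y ∈ W := by
    intro x
    have h1 := hW x y w hw
    rwa [hwd, hy, one_smul] at h1
  -- `y` is in `W`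
  have hyW : y ∈ W := by
    by_contra hyW
    have hiso : ∀ b ∈ W, ∀ z ∈ W, (B *ᵥ b) ⬝ᵥ z = 0 := by
      intro b hb z hz
      by_contra hne
      apply hyW
      have h1 := hW y b z hz
      rw [hwd] at h1
      have h2 : ((B *ᵥ b) ⬝ᵥ z) • y ∈ W := by
        have h3 := W.add_mem h1 (W.smul_mem ((B *ᵥ y) ⬝ᵥ z) hb)
        rwa [sub_add_cancel] at h3
      have h4 := W.smul_mem ((B *ᵥ b) ⬝ᵥ z)⁻¹ h2
      rwa [smul_smul, inv_mul_cancel₀ hne, one_smul] at h4
    -- a vector orthogonal to `w` and `y`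
    let F : (Fin n → K) →ₗ[K] (Fin 2 → K) :=
      { toFun := fun x => ![(B *ᵥ x) ⬝ᵥ w, (B *ᵥ x) ⬝ᵥ y]
        map_add' := fun x x' => by
          funext i
          fin_cases i <;> simp [mulVec_add, add_dotProduct]
        map_smul' := fun t x => by
          funext i
          fin_cases i <;> simp [mulVec_smul, smul_dotProduct] }
    have hker : LinearMap.ker F ≠ ⊥ := by
      refine LinearMap.ker_ne_bot_of_finrank_lt ?_
      rw [Module.finrank_fin_fun, Module.finrank_fin_fun]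
      omega
    obtain ⟨x, hx, hx0⟩ := (Submodule.ne_bot_iff _).1 hker
    have hx1 : (B *ᵥ x) ⬝ᵥ w = 0 := congrFun (LinearMap.mem_ker.1 hx) 0
    have hx2 : (B *ᵥ x) ⬝ᵥ y = 0 := congrFun (LinearMap.mem_ker.1 hx) 1
    have hxW : x ∈ W := by
      have h1 := hstar x
      rwa [hx1, zero_smul, sub_zero] at h1
    obtain ⟨z, hz⟩ := hsurj x hx0
    have h1 := hiso x hxW _ (hstar z)
    rw [dotProduct_sub, dotProduct_smul, hx2, smul_zero, sub_zero] at h1
    have h2 : (B *ᵥ x) ⬝ᵥ z = (B *ᵥ z) ⬝ᵥ x := by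
      rw [dotProduct_comm, dotProduct_mulVec, ← mulVec_transpose, hB]
    rw [h2, hz] at h1
    exact one_ne_zero h1
  rw [eq_top_iff]
  intro x _
  have h1 := W.add_mem (hstar x) (W.smul_mem ((B *ᵥ x) ⬝ᵥ w) hyW)
  rwa [sub_add_cancel] at h1

/-- a subspace which is stable under the special orthogonal group -/
theorem irr_of_SO [CharZero K] {B : Matrix (Fin n) (Fin n) K} (hB : Bᵀ = B) (hd : B.det ≠ 0)
    (hn : 3 ≤ n) {W : Submodule K (Fin n → K)}
    (hW : ∀ g : Matrix (Fin n) (Fin n) K, gᵀ * B * g = B → g.det = 1 → ∀ w ∈ W, g *ᵥ w ∈ W) :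
    W = ⊥ ∨ W = ⊤ := by
  obtain ⟨v, hv, hb⟩ := Pool.Agent.Y127.I.exists_ob (A := B) hB hd two_ne_zero
  have hbil : ∀ x y, Pool.Agent.Y127.I.bil B x y = x ⬝ᵥ (B *ᵥ y) := fun x y =>
    Matrix.toLinearMap₂'_apply' _ _ _
  let L : Submodule K (Matrix (Fin n) (Fin n) K) :=
    { carrier := {Y | ∀ w ∈ W, Y *ᵥ w ∈ W}
      zero_mem' := fun w _ => by rw [zero_mulVec]; exact W.zero_mem
      add_mem' := fun {x y} hx hy w hw => by
        rw [add_mulVec]; exact W.add_mem (hx w hw) (hy w hw)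
      smul_mem' := fun t x hx w hw => by
        rw [smul_mulVec]; exact W.smul_mem _ (hx w hw) }
  refine irr_wd hB hd hn fun x y => ?_
  have key : ∀ i k, wd B (v i) (v k) ∈ L := by
    intro i k
    by_cases hik : i = k
    · rw [hik, wd_self']
      exact L.zero_mem
    have h0 : v i ⬝ᵥ (B *ᵥ v k) = 0 := by rw [← hbil]; exact hv i k hik
    have hZs := wr_skew hB (v i) (v k)
    have hZ3 := wr_cube hB h0
    obtain ⟨Z, hZ⟩ : ∃ Z, Z = wr B (v i) (v k) := ⟨_, rfl⟩
    have hZ' : Z = wd B (v i) (v k) := hZ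
    rw [← hZ] at hZs hZ3
    rw [← hZ']
    obtain ⟨l, hl⟩ : ∃ l, l = -((v i ⬝ᵥ (B *ᵥ v i)) * (v k ⬝ᵥ (B *ᵥ v k))) := ⟨_, rfl⟩
    rw [← hl] at hZ3
    -- choose `t`
    obtain ⟨t, ht0, ht, ht'⟩ : ∃ t : K, t ≠ 0 ∧ 1 - l * t ^ 2 ≠ 0 ∧ 1 + l * t ^ 2 ≠ 0 := by
      by_cases h1 : (1 - l * (1 : K) ^ 2) * (1 + l * (1 : K) ^ 2) = 0
      · have h2 : (1 - l * (2 : K) ^ 2) * (1 + l * (2 : K) ^ 2) ≠ 0 := by
          intro h2
          have h3 : (15 : K) = 0 := by linear_combination 16 * h1 - h2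
          norm_num at h3
        exact ⟨2, two_ne_zero, left_ne_zero_of_mul h2, right_ne_zero_of_mul h2⟩
      · exact ⟨1, one_ne_zero, left_ne_zero_of_mul h1, right_ne_zero_of_mul h1⟩
    obtain ⟨a, ha⟩ : ∃ a, a = 2 * t / (1 - l * t ^ 2) := ⟨_, rfl⟩
    obtain ⟨b, hb'⟩ : ∃ b, b = 2 * t ^ 2 / (1 - l * t ^ 2) := ⟨_, rfl⟩
    have hab : 2 * b - a ^ 2 + l * b ^ 2 = 0 := by
      rw [ha, hb']
      field_simp
      ring
    have hg : ∀ s : K, s ^ 2 = a ^ 2 →
        (1 + s • Z + b • (Z * Z)) * (1 + s • Z + b • (Z * Z)) ∈ L := by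
      intro s hs
      have h1 := rot_isom hZs hZ3 (a := s) (b := b) (by rw [hs]; exact hab)
      generalize 1 + s • Z + b • (Z * Z) = g at h1
      refine hW _ ?_ ?_
      · calc (g * g)ᵀ * B * (g * g) = gᵀ * (gᵀ * B * g) * g := by
              rw [transpose_mul]; simp only [mul_assoc]
          _ = B := by rw [h1, h1]
      · have h2 := congrArg Matrix.det h1
        rw [det_mul, det_mul, det_transpose] at h2
        rw [det_mul]
        have h3 : (g.det * g.det - 1) * B.det = 0 := by linear_combination h2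
        exact sub_eq_zero.1 ((mul_eq_zero.1 h3).resolve_right hd)
    have h1 := hg a rfl
    have h2 := hg (-a) (neg_sq a)
    have h3 := L.sub_mem h1 h2
    have h4 : (1 + a • Z + b • (Z * Z)) * (1 + a • Z + b • (Z * Z)) -
        (1 + -a • Z + b • (Z * Z)) * (1 + -a • Z + b • (Z * Z)) =
        (4 * a * (1 + b * l)) • Z := by
      have h5 : (1 + a • Z + b • (Z * Z)) * (1 + a • Z + b • (Z * Z)) -
        (1 + -a • Z + b • (Z * Z)) * (1 + -a • Z + b • (Z * Z)) =
        (4 * a) • Z + (4 * a * b) • (Z * Z * Z) := by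
        simp only [mul_add, add_mul, mul_one, one_mul, smul_mul_assoc, mul_smul_comm, smul_smul,
          ← mul_assoc]
        module
      rw [h5, hZ3, smul_smul, ← add_smul]
      congr 1
      ring
    rw [h4] at h3
    have h5 : 4 * a * (1 + b * l) ≠ 0 := by
      refine mul_ne_zero (mul_ne_zero (by norm_num) ?_) ?_
      · rw [ha]
        exact div_ne_zero (mul_ne_zero two_ne_zero ht0) ht
      · have h6 : 1 + b * l = (1 + l * t ^ 2) / (1 - l * t ^ 2) := by
          rw [eq_div_iff ht, hb']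
          have h7 : 2 * t ^ 2 / (1 - l * t ^ 2) * (1 - l * t ^ 2) = 2 * t ^ 2 :=
            div_mul_cancel₀ _ ht
          linear_combination l * h7
        rw [h6]
        exact div_ne_zero ht' ht
    have h6 := L.smul_mem (4 * a * (1 + b * l))⁻¹ h3
    rwa [smul_smul, inv_mul_cancel₀ h5, one_smul] at h6
  exact wd_all v key x y

end eqs

end

end Pool.Agent.Y127.A
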