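import Pool.Agent.Y127.A.Rot
import Pool.Agent.Y127.I.Small3

/-!
# Open subgroups of the orthogonal group over the `p`-adic integers are Zariski dense
-/

set_option autoImplicit false
set_option linter.unusedSectionVars false

namespace Pool.Agent.Y127.A

open MvPolynomial Matrix Pool.Agent.W528.ZC Pool.Agent.Y95.MT

noncomputable section

variable {p : ℕ} [hp : Fact p.Prime] {n : ℕ} {Γ : Type} [Group Γ]

/-- the representation over `ℚ_p` -/
def rq (r : Γ →* Matrix (Fin n) (Fin n) ℤ_[p]) : Γ →* Matrix (Fin n) (Fin n) ℚ_[p] :=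
  ((PadicInt.Coe.ringHom (p := p)).mapMatrix (m := Fin n)).toMonoidHom.comp r

theorem rq_apply (r : Γ →* Matrix (Fin n) (Fin n) ℤ_[p]) (γ : Γ) :
    rq r γ = (r γ).map (PadicInt.Coe.ringHom (p := p)) := rfl

/-- the image contains a congruence subgroup -/
def OpenIm (A : Matrix (Fin n) (Fin n) ℤ_[p]) (r : Γ →* Matrix (Fin n) (Fin n) ℤ_[p]) : Prop :=
  ∃ k : ℕ, ∀ g : Matrix (Fin n) (Fin n) ℤ_[p], gᵀ * A * g = A →
    (∃ Y, g = 1 + (p : ℤ_[p]) ^ k • Y) → ∃ γ, r γ = g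

theorem infinite_pow {K : Type} [Field K] {f : ℕ → K} (hf : Function.Injective f) {M : ℕ}
    (hM : 0 < M) : (Set.range fun m => f m ^ M).Infinite := by
  intro hfin
  have h1 : (⋃ c ∈ (Set.range fun m => f m ^ M), {z : K | z ^ M = c}).Finite := by
    refine Set.Finite.biUnion hfin fun c _ => ?_
    classical
    refine ((Polynomial.nthRoots M c).toFinset.finite_toSet).subset fun z hz => ?_
    rw [Finset.mem_coe, Multiset.mem_toFinset, Polynomial.mem_nthRoots hM]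
    exact hz
  refine Set.infinite_range_of_injective hf (h1.subset ?_)
  rintro _ ⟨m, rfl⟩
  exact Set.mem_biUnion ⟨m, rfl⟩ rfl

theorem inv_pw {ι : Type} [Fintype ι] [DecidableEq ι] {K : Type} [Field K] [CharZero K]
    {x : Matrix ι ι K} (hx : x * x * x = x) (c : K) (m : ℕ) :
    pw F3 (E3 x) c ^ m = pw F3 (E3 x) (c ^ m) := pw_pow c (Gr3 hx) m

theorem wr_mem {A : Matrix (Fin n) (Fin n) ℤ_[p]} (hA : Aᵀ = A)
    {r : Γ →* Matrix (Fin n) (Fin n) ℤ_[p]} (ho : OpenIm A r) (j : ℚ_[p] →+* ℂ)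
    {u w : Fin n → ℤ_[p]} (huw : u ⬝ᵥ (A *ᵥ w) = 0) (hu : u ⬝ᵥ (A *ᵥ u) ≠ 0)
    (hw : w ⬝ᵥ (A *ᵥ w) ≠ 0) :
    (wr A u w).map (j.comp (PadicInt.Coe.ringHom (p := p))) ∈ LS (IG (rq r) j) := by
  obtain ⟨k0, hk0⟩ := ho
  obtain ⟨c, hc⟩ : ∃ c, c = j.comp (PadicInt.Coe.ringHom (p := p)) := ⟨_, rfl⟩
  rw [← hc]
  have hcinj : Function.Injective c := by
    rw [hc]
    intro x y hxy
    exact Subtype.coe_injective (j.injective hxy)
  obtain ⟨l, hl⟩ : ∃ l, l = -((u ⬝ᵥ (A *ᵥ u)) * (w ⬝ᵥ (A *ᵥ w))) := ⟨_, rfl⟩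
  have hl0 : l ≠ 0 := by
    rw [hl]
    exact neg_ne_zero.2 (mul_ne_zero hu hw)
  obtain ⟨Z, hZ⟩ : ∃ Z, Z = wr A u w := ⟨_, rfl⟩
  rw [← hZ]
  have hZs : Zᵀ * A + A * Z = 0 := by rw [hZ]; exact wr_skew hA u w
  have hZ3 : Z * Z * Z = l • Z := by rw [hZ, hl]; exact wr_cube hA huw
  obtain ⟨s, hs⟩ := IsAlgClosed.exists_pow_nat_eq (c l) (show 0 < 2 by norm_num)
  have hs0 : s ≠ 0 := by
    rintro rfl
    rw [zero_pow (by norm_num)] at hs
    exact hl0 (hcinj (by rw [← hs, map_zero]))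
  have hpc : c (p : ℤ_[p]) = (p : ℂ) := map_natCast c p
  have hp0 : (p : ℂ) ≠ 0 := by exact_mod_cast hp.out.ne_zero
  -- the unit
  have hunit : ∀ m : ℕ, ∃ e : ℤ_[p], (1 - l * ((p : ℤ_[p]) ^ (m + 1)) ^ 2) * e = 1 := by
    intro m
    have h1 : PadicInt.toZMod (1 - l * ((p : ℤ_[p]) ^ (m + 1)) ^ 2) ≠ 0 := by
      rw [map_sub, map_mul, map_pow, map_pow, map_natCast, map_one, ZMod.natCast_self,
        zero_pow (by omega), zero_pow (by norm_num), mul_zero, sub_zero]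
      exact one_ne_zero
    exact (Pool.Agent.Y127.I.isUnit_of_toZMod h1).exists_right_inv
  choose e he using hunit
  have hel : ∀ m : ℕ, ∃ γ, r γ = 1 + (2 * (p : ℤ_[p]) ^ (m + k0 + 1) * e (m + k0)) • Z +
      (2 * ((p : ℤ_[p]) ^ (m + k0 + 1)) ^ 2 * e (m + k0)) • (Z * Z) := by
    intro m
    refine hk0 _ (rot_isom hZs hZ3 ?_) ⟨(2 * (p : ℤ_[p]) ^ (m + 1) * e (m + k0)) • Z +
      (2 * (p : ℤ_[p]) ^ (m + 1) * (p : ℤ_[p]) ^ (m + k0 + 1) * e (m + k0)) • (Z * Z), ?_⟩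
    · have h1 := he (m + k0)
      generalize (p : ℤ_[p]) ^ (m + k0 + 1) = t at h1 ⊢
      generalize e (m + k0) = e at h1 ⊢
      linear_combination (-(4 * t ^ 2 * e)) * h1
    · rw [smul_add, smul_smul, smul_smul, add_assoc]
      congr 2
      · congr 1
        rw [show m + k0 + 1 = k0 + (m + 1) by ring, pow_add]
        ring
      · congr 1
        rw [show m + k0 + 1 = k0 + (m + 1) by ring, pow_add]
        ring
  choose γ hγ using hel
  -- over `ℂ`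
  have hY3 : (s⁻¹ • Z.map c) * (s⁻¹ • Z.map c) * (s⁻¹ • Z.map c) = s⁻¹ • Z.map c := by
    have h1 : Z.map c * Z.map c * Z.map c = (c l) • Z.map c := by
      have h2 := congrArg (fun x : Matrix (Fin n) (Fin n) ℤ_[p] => x.map c) hZ3
      simp only [Matrix.map_mul] at h2
      rw [h2]
      ext a b
      simp
    rw [smul_mul_smul_comm, smul_mul_smul_comm, h1, ← hs, smul_smul]
    congr 1
    field_simp
  have hne : ∀ m : ℕ, (1 - (p : ℂ) ^ (m + 1) * s) * (1 + (p : ℂ) ^ (m + 1) * s) ≠ 0 := by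
    intro m h
    have h1 := congrArg c (he m)
    rw [map_mul, map_sub, map_mul, map_pow, map_pow, map_one, hpc, ← hs] at h1
    rw [show 1 - s ^ 2 * ((p : ℂ) ^ (m + 1)) ^ 2 =
      (1 - (p : ℂ) ^ (m + 1) * s) * (1 + (p : ℂ) ^ (m + 1) * s) by ring, h, zero_mul] at h1
    exact zero_ne_one h1
  have hpw : ∀ m : ℕ, ((rq r) (γ m)).map j = pw F3 (E3 (s⁻¹ • Z.map c))
      ((1 + (p : ℂ) ^ (m + k0 + 1) * s) / (1 - (p : ℂ) ^ (m + k0 + 1) * s)) := by
    intro m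
    have h1 := left_ne_zero_of_mul (hne (m + k0))
    have h2 := right_ne_zero_of_mul (hne (m + k0))
    rw [← cay_pw hs0 h1 h2]
    have h3 := congrArg c (he (m + k0))
    rw [map_mul, map_sub, map_mul, map_pow, map_pow, map_one, hpc, ← hs] at h3
    have h4 : (1 - s ^ 2 * ((p : ℂ) ^ (m + k0 + 1)) ^ 2) ≠ 0 := left_ne_zero_of_mul (by
      rw [h3]; exact one_ne_zero)
    have h5 : c (e (m + k0)) = (1 - s ^ 2 * ((p : ℂ) ^ (m + k0 + 1)) ^ 2)⁻¹ :=
      eq_inv_of_mul_eq_one_right h3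
    have h6 : ((rq r) (γ m)).map j = (r (γ m)).map c := by
      rw [rq_apply, hc, Matrix.map_map]
      rfl
    rw [h6, hγ m]
    ext a b
    simp only [Matrix.map_apply, Matrix.add_apply, Matrix.smul_apply, smul_eq_mul, map_add,
      map_mul, map_pow, hpc, h5, Matrix.one_apply, Matrix.mul_apply, map_sum, map_ofNat]
    congr 1
    congr 1
    split_ifs <;> simp
  have hinj : Function.Injective fun m : ℕ =>
      ((1 + (p : ℂ) ^ (m + k0 + 1) * s) / (1 - (p : ℂ) ^ (m + k0 + 1) * s)) := by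
    intro m m' h
    have h1 := left_ne_zero_of_mul (hne (m + k0))
    have h2 := left_ne_zero_of_mul (hne (m' + k0))
    have h3 : (1 + (p : ℂ) ^ (m + k0 + 1) * s) / (1 - (p : ℂ) ^ (m + k0 + 1) * s) =
      (1 + (p : ℂ) ^ (m' + k0 + 1) * s) / (1 - (p : ℂ) ^ (m' + k0 + 1) * s) := h
    rw [div_eq_div_iff h1 h2] at h3
    have h4 : ((p : ℂ) ^ (m + k0 + 1) - (p : ℂ) ^ (m' + k0 + 1)) * s = 0 := by
      linear_combination (1 / 2) * h3
    have h5 : (p : ℂ) ^ (m + k0 + 1) = (p : ℂ) ^ (m' + k0 + 1) :=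
      sub_eq_zero.1 ((mul_eq_zero.1 h4).resolve_right hs0)
    have h6 : p ^ (m + k0 + 1) = p ^ (m' + k0 + 1) := by exact_mod_cast h5
    have h7 := Nat.pow_right_injective hp.out.two_le h6
    omega
  -- the Lie algebra
  obtain ⟨Δ, hΔ, hu'⟩ := exists_unif (rq r) j
  have hM0 : Δ.normalCore.index ≠ 0 := Subgroup.FiniteIndex.index_ne_zero
  have hmem : s⁻¹ • Z.map c ∈ LS (IG (rq r) j) := by
    have h1 := dr_mem_LS (S := IG (rq r) j) (Gr3 hY3) fun f hf => ?_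
    · rwa [dr3] at h1
    · refine (infinite_pow hinj (Nat.pos_of_ne_zero hM0)).mono ?_
      rintro _ ⟨m, rfl⟩
      refine ⟨pow_ne_zero _ (div_ne_zero (right_ne_zero_of_mul (hne (m + k0)))
        (left_ne_zero_of_mul (hne (m + k0)))), Δ, hΔ, fun t ht => ?_⟩
      show ev (((rq r) t).map j) (sub 1 (pw F3 (E3 (s⁻¹ • Z.map c))
        (((1 + (p : ℂ) ^ (m + k0 + 1) * s) / (1 - (p : ℂ) ^ (m + k0 + 1) * s)) ^
          Δ.normalCore.index)) f) = 0
      rw [← inv_pw hY3, ← hpw, ev_sub, one_mul, map_pow_j, ← Matrix.map_mul, ← map_mul]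
      exact hu' f hf _ (Δ.mul_mem ht (Δ.normalCore_le (Δ.normalCore.pow_index_mem (γ m))))
  have h1 := Submodule.smul_mem _ s hmem
  rwa [smul_smul, mul_inv_cancel₀ hs0, one_smul] at h1

end

end Pool.Agent.Y127.A
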