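import Pool.Agent.Y127.A.Dense
import Pool.Agent.Y95.MT.Main

/-!
# The Zariski closure of an open subgroup
-/

set_option autoImplicit false
set_option linter.unusedSectionVars false

namespace Pool.Agent.Y127.A

open MvPolynomial Matrix Pool.Agent.W528.ZC Pool.Agent.Y95.MT Pool.Agent.W544.PG

noncomputable section

section span

variable {K : Type} [Field K] {n : ℕ}

theorem wd_swap (Q : Matrix (Fin n) (Fin n) K) (a b : Fin n → K) : wd Q a b = -wd Q b a := by
  unfold wd
  rw [neg_sub]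

theorem wd_all {L : Submodule K (Matrix (Fin n) (Fin n) K)} {Q : Matrix (Fin n) (Fin n) K}
    (v : Module.Basis (Fin n) K (Fin n → K)) (h : ∀ i j, wd Q (v i) (v j) ∈ L) (x y : Fin n → K) :
    wd Q x y ∈ L := by
  let N : (Fin n → K) → Submodule K (Fin n → K) := fun a =>
    { carrier := {b | wd Q a b ∈ L}
      zero_mem' := by
        show wd Q a 0 ∈ L
        rw [wd_zero]; exact L.zero_mem
      add_mem' := fun {b b'} hb hb' => by
        show wd Q a (b + b') ∈ L
        rw [wd_add]; exact L.add_mem hb hb'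
      smul_mem' := fun t b hb => by
        show wd Q a (t • b) ∈ L
        rw [wd_smul]; exact L.smul_mem _ hb }
  have hN : ∀ a b, b ∈ N a ↔ wd Q a b ∈ L := fun a b => Iff.rfl
  have h1 : ∀ a, (∀ i, wd Q a (v i) ∈ L) → ∀ b, wd Q a b ∈ L := by
    intro a ha b
    rw [← hN]
    have h2 : (⊤ : Submodule K (Fin n → K)) ≤ N a := by
      rw [← v.span_eq, Submodule.span_le]
      rintro _ ⟨i, rfl⟩
      exact ha i
    exact h2 Submodule.mem_top
  refine h1 x (fun i => ?_) y
  rw [wd_swap]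
  exact L.neg_mem (h1 _ (h i) x)

theorem wd_self' (Q : Matrix (Fin n) (Fin n) K) (a : Fin n → K) : wd Q a a = 0 := by
  unfold wd
  rw [sub_self]

end span

variable {p : ℕ} [hp : Fact p.Prime] {n : ℕ} {Γ : Type} [Group Γ]

/-- an integral multiple of a vector -/
theorem exists_intv (x : Fin n → ℚ_[p]) : ∃ (s : ℕ) (w : Fin n → ℤ_[p]),
    ∀ a, ((w a : ℤ_[p]) : ℚ_[p]) = (p : ℚ_[p]) ^ s * x a := by
  choose s hs using fun a => Pool.Agent.Y127.I.exists_int (p := p) (x a)
  have h1 : ∀ a, ∃ w : ℤ_[p], (p : ℚ_[p]) ^ (∑ a, s a) * x a = w := fun a =>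
    hs a _ (Finset.single_le_sum (fun _ _ => Nat.zero_le _) (Finset.mem_univ a))
  choose w hw using h1
  exact ⟨_, w, fun a => (hw a).symm⟩

theorem map_wd' {F K : Type} [Field F] [Field K] (j : F →+* K) (Q : Matrix (Fin n) (Fin n) F)
    (x y : Fin n → F) : (wd Q x y).map j = wd (Q.map j) (fun a => j (x a)) (fun a => j (y a)) := by
  ext a b
  simp only [wd, Matrix.map_apply, Matrix.sub_apply, vecMulVec_apply, map_sub, map_mul,
    Matrix.mulVec, dotProduct, map_sum]

/-- the Lie algebra contains all skew matrices -/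
theorem so_mem' {A : Matrix (Fin n) (Fin n) ℤ_[p]} (hA : Aᵀ = A) (hd : A.det ≠ 0)
    {r : Γ →* Matrix (Fin n) (Fin n) ℤ_[p]} (ho : OpenIm A r) (j : ℚ_[p] →+* ℂ)
    {Q : Matrix (Fin n) (Fin n) ℂ}
    (hQ : Q = (A.map (PadicInt.Coe.ringHom (p := p))).map j)
    {Z : Matrix (Fin n) (Fin n) ℂ} (hZ : Zᵀ * Q + Q * Z = 0) : Z ∈ LS (IG (rq r) j) := by
  obtain ⟨Aq, hAq⟩ : ∃ Aq, Aq = A.map (PadicInt.Coe.ringHom (p := p)) := ⟨_, rfl⟩
  rw [← hAq] at hQ
  have hAqs : Aqᵀ = Aq := by rw [hAq, ← Matrix.transpose_map, hA]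
  have hAqd : Aq.det ≠ 0 := by
    have h1 : Aq.det = (PadicInt.Coe.ringHom (p := p)) A.det := by
      rw [hAq]
      exact (RingHom.map_det (PadicInt.Coe.ringHom (p := p)) A).symm
    rw [h1]
    intro h2
    exact hd (Subtype.coe_injective h2)
  have hQs : Qᵀ = Q := by rw [hQ, ← Matrix.transpose_map, hAqs]
  have hQd : Q.det ≠ 0 := by
    have h1 : Q.det = j Aq.det := by
      rw [hQ]
      exact (RingHom.map_det j Aq).symm
    rw [h1]
    exact (map_ne_zero j).2 hAqd
  obtain ⟨v, hv, hb⟩ := Pool.Agent.Y127.I.exists_ob (A := Aq) hAqs hAqd two_ne_zero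
  have hbil : ∀ x y, Pool.Agent.Y127.I.bil Aq x y = x ⬝ᵥ (Aq *ᵥ y) := fun x y =>
    Matrix.toLinearMap₂'_apply' _ _ _
  choose s w hw using fun i => exists_intv (p := p) (v i)
  have hp0 : (p : ℚ_[p]) ≠ 0 := by exact_mod_cast hp.out.ne_zero
  have hdot : ∀ i k, ((w i ⬝ᵥ (A *ᵥ w k) : ℤ_[p]) : ℚ_[p]) =
      (p : ℚ_[p]) ^ s i * (p : ℚ_[p]) ^ s k * (v i ⬝ᵥ (Aq *ᵥ v k)) := by
    intro i k
    have h1 : ((w i ⬝ᵥ (A *ᵥ w k) : ℤ_[p]) : ℚ_[p]) =
        (PadicInt.Coe.ringHom (p := p)) (w i ⬝ᵥ (A *ᵥ w k)) := rfl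
    have h2 : ∀ i a, (PadicInt.Coe.ringHom (p := p)) (w i a) = (p : ℚ_[p]) ^ s i * v i a :=
      fun i a => hw i a
    rw [h1]
    simp only [dotProduct, Matrix.mulVec, map_sum, map_mul, h2, hAq, Matrix.map_apply,
      Finset.mul_sum]
    refine Finset.sum_congr rfl fun a _ => Finset.sum_congr rfl fun b _ => ?_
    ring
  let L' : Submodule ℚ_[p] (Matrix (Fin n) (Fin n) ℚ_[p]) :=
    { carrier := {Y | Y.map j ∈ LS (IG (rq r) j)}
      zero_mem' := by
        show (0 : Matrix (Fin n) (Fin n) ℚ_[p]).map j ∈ LS (IG (rq r) j)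
        rw [Matrix.map_zero _ (map_zero j)]
        exact Submodule.zero_mem _
      add_mem' := fun {x y} hx hy => by
        show (x + y).map j ∈ LS (IG (rq r) j)
        rw [Matrix.map_add _ (map_add j)]
        exact Submodule.add_mem _ hx hy
      smul_mem' := fun t x hx => by
        show (t • x).map j ∈ LS (IG (rq r) j)
        have h1 : (t • x).map j = j t • x.map j := by
          ext a b
          simp
        rw [h1]
        exact Submodule.smul_mem _ _ hx }
  have hL' : ∀ Y, Y ∈ L' ↔ Y.map j ∈ LS (IG (rq r) j) := fun Y => Iff.rfl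
  have hvv : ∀ i k, wd Aq (v i) (v k) ∈ L' := by
    intro i k
    by_cases hik : i = k
    · rw [hik, wd_self']
      exact L'.zero_mem
    · have h1 := wr_mem hA ho j (u := w i) (w := w k) (by
        have h2 := hdot i k
        rw [← hbil, hv i k hik, mul_zero] at h2
        exact Subtype.coe_injective h2) (by
        intro h3
        have h2 := hdot i i
        rw [h3, ← hbil] at h2
        have h4 : ((0 : ℤ_[p]) : ℚ_[p]) = 0 := rfl
        rw [h4] at h2
        exact mul_ne_zero (mul_ne_zero (pow_ne_zero _ hp0) (pow_ne_zero _ hp0)) (hb i) h2.symm) (by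
        intro h3
        have h2 := hdot k k
        rw [h3, ← hbil] at h2
        have h4 : ((0 : ℤ_[p]) : ℚ_[p]) = 0 := rfl
        rw [h4] at h2
        exact mul_ne_zero (mul_ne_zero (pow_ne_zero _ hp0) (pow_ne_zero _ hp0)) (hb k) h2.symm)
      have h5 : (wr A (w i) (w k)).map (PadicInt.Coe.ringHom (p := p)) =
          ((p : ℚ_[p]) ^ s i * (p : ℚ_[p]) ^ s k) • wd Aq (v i) (v k) := by
        have h2 : ∀ i a, (PadicInt.Coe.ringHom (p := p)) (w i a) = (p : ℚ_[p]) ^ s i * v i a :=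
          fun i a => hw i a
        ext a b
        simp only [wr, wd, Matrix.map_apply, Matrix.sub_apply, vecMulVec_apply, map_sub, map_mul,
          Matrix.mulVec, dotProduct, map_sum, Matrix.smul_apply, smul_eq_mul, h2, hAq,
          mul_sub, Finset.mul_sum]
        congr 1
        · refine Finset.sum_congr rfl fun x _ => ?_
          ring
        · refine Finset.sum_congr rfl fun x _ => ?_
          ring
      have h6 : (((p : ℚ_[p]) ^ s i * (p : ℚ_[p]) ^ s k) • wd Aq (v i) (v k)) ∈ L' := by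
        rw [hL', ← h5, Matrix.map_map]
        exact h1
      have h7 := L'.smul_mem ((p : ℚ_[p]) ^ s i * (p : ℚ_[p]) ^ s k)⁻¹ h6
      rwa [smul_smul, inv_mul_cancel₀ (mul_ne_zero (pow_ne_zero _ hp0) (pow_ne_zero _ hp0)),
        one_smul] at h7
  have hall := wd_all v hvv
  -- over `ℂ`
  have hC : ∀ a b : Fin n → ℂ, wd Q a b ∈ LS (IG (rq r) j) := by
    refine wd_all (Pi.basisFun ℂ (Fin n)) fun x y => ?_
    have h1 := hall (Pi.single x 1) (Pi.single y 1)
    rw [hL', map_wd', ← hQ] at h1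
    have h8 : ∀ x : Fin n, (fun a => j ((Pi.single x (1 : ℚ_[p]) : Fin n → ℚ_[p]) a)) =
        (Pi.single x (1 : ℂ) : Fin n → ℂ) := by
      intro x
      funext a
      rw [Pi.single_apply, Pi.single_apply]
      split_ifs
      · exact map_one j
      · exact map_zero j
    rw [h8, h8] at h1
    rw [Pi.basisFun_apply, Pi.basisFun_apply]
    exact h1
  let tb : Matrix (Fin 0 ⊕ Fin n) (Fin 0 ⊕ Fin n) ℂ →ₗ[ℂ] Matrix (Fin n) (Fin n) ℂ :=
    { toFun := fun M => M.toBlocks₂₂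
      map_add' := fun _ _ => rfl
      map_smul' := fun _ _ => rfl }
  have h9 := skew_mem (κ := Fin 0) (c := fun _ : Fin n => (0 : Fin 1)) hQs hQd
    (fun a b h => absurd rfl h) (L := (LS (IG (rq r) j)).comap tb)
    (fun i a b _ _ => by
      show (fromBlocks 0 0 0 (wd Q a b)).toBlocks₂₂ ∈ LS (IG (rq r) j)
      rw [Matrix.toBlocks_fromBlocks₂₂]
      exact hC a b) hZ (fun a b h => absurd rfl h)
  have h10 : (fromBlocks 0 0 0 Z : Matrix (Fin 0 ⊕ Fin n) (Fin 0 ⊕ Fin n) ℂ).toBlocks₂₂ ∈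
    LS (IG (rq r) j) := h9
  rwa [Matrix.toBlocks_fromBlocks₂₂] at h10

theorem bl_one_col (g : Matrix (Fin n) (Fin n) ℂ) (i : Fin 1) :
    bl (fun _ : Fin n => (0 : Fin 1)) i g = g := by
  ext a b
  rw [bl, Matrix.of_apply, if_pos ⟨Subsingleton.elim _ _, Subsingleton.elim _ _⟩]

/-- **The special orthogonal group is contained in the Zariski closure of every subgroup of finite
index.** -/
theorem closure_of_open {A : Matrix (Fin n) (Fin n) ℤ_[p]} (hA : Aᵀ = A) (hd : A.det ≠ 0)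
    {r : Γ →* Matrix (Fin n) (Fin n) ℤ_[p]} (ho : OpenIm A r)
    {g : Matrix (Fin n) (Fin n) (AlgebraicClosure ℚ_[p])}
    (hg : gᵀ * (A.map (PadicInt.Coe.ringHom (p := p))).map
      (algebraMap ℚ_[p] (AlgebraicClosure ℚ_[p])) * g =
      (A.map (PadicInt.Coe.ringHom (p := p))).map (algebraMap ℚ_[p] (AlgebraicClosure ℚ_[p])))
    (hg1 : g.det = 1) {f : MvPolynomial (Fin n × Fin n) (AlgebraicClosure ℚ_[p])}
    (hf : f ∈ IG (rq r) (algebraMap ℚ_[p] (AlgebraicClosure ℚ_[p]))) : ev g f = 0 := by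
  obtain ⟨e⟩ := exists_emb p
  obtain ⟨j, hj⟩ : ∃ j, j = algebraMap ℚ_[p] (AlgebraicClosure ℚ_[p]) := ⟨_, rfl⟩
  rw [← hj] at hg hf
  refine InZS_of_St InZS_one (St_transfer e ?_) f hf
  obtain ⟨Q, hQ⟩ : ∃ Q, Q = (A.map (PadicInt.Coe.ringHom (p := p))).map (e.comp j) := ⟨_, rfl⟩
  have hQs : Qᵀ = Q := by rw [hQ, ← Matrix.transpose_map, ← Matrix.transpose_map, hA]
  have hQd : Q.det ≠ 0 := by
    have h1 : Q.det = (e.comp j) ((PadicInt.Coe.ringHom (p := p)) A.det) := by
      rw [hQ, RingHom.map_det, RingHom.map_det]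
      rfl
    rw [h1]
    refine (map_ne_zero (e.comp j)).2 fun h2 => hd (Subtype.coe_injective h2)
  refine so_gen_Q (c := fun _ : Fin n => (0 : Fin 1)) hQs (fun a b h => absurd rfl h) hQd ?_ ?_
    (fun a b h => absurd rfl h) ?_
  · intro Z hZ _ hZ3 t ht
    refine pw_mem_St (Gr3 hZ3) ?_ ht
    rw [dr3]
    exact so_mem' hA hd ho (e.comp j) hQ hZ
  · have h1 := congrArg (fun M : Matrix (Fin n) (Fin n) (AlgebraicClosure ℚ_[p]) => M.map e) hg
    simp only [Matrix.map_mul, Matrix.transpose_map, Matrix.map_map] at h1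
    have h2 : (A.map (PadicInt.Coe.ringHom (p := p))).map (e.comp j) =
      A.map ((e ∘ j) ∘ PadicInt.Coe.ringHom (p := p)) := by
      rw [Matrix.map_map]; rfl
    rw [hQ, h2]
    exact h1
  · intro i
    rw [bl_one_col]
    have h1 := congrArg e hg1
    rw [map_one, RingHom.map_det] at h1
    exact h1

end

end Pool.Agent.Y127.A
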