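import Pool.Agent.Y127.I.Gen3
import Pool.Agent.Y127.I.Glob
import Pool.Agent.Y127.I.JorC
import Pool.Agent.Y95.MT.GalSide

/-!
# Rotations of a plane and the Lie algebra of the Zariski closure
-/

set_option autoImplicit false
set_option linter.unusedSectionVars false

namespace Pool.Agent.Y127.A

open MvPolynomial Matrix Pool.Agent.W528.ZC Pool.Agent.Y95.MT

noncomputable section

section cay

variable {K : Type} [Field K] [CharZero K] {ι : Type} [Fintype ι] [DecidableEq ι]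

theorem cay_pw {Z : Matrix ι ι K} {s t : K} (hs : s ≠ 0) (h1 : 1 - t * s ≠ 0)
    (h2 : 1 + t * s ≠ 0) :
    1 + (2 * t / (1 - s ^ 2 * t ^ 2)) • Z + (2 * t ^ 2 / (1 - s ^ 2 * t ^ 2)) • (Z * Z) =
      pw F3 (E3 (s⁻¹ • Z)) ((1 + t * s) / (1 - t * s)) := by
  have h3 : 1 - s ^ 2 * t ^ 2 ≠ 0 := by
    rw [show 1 - s ^ 2 * t ^ 2 = (1 - t * s) * (1 + t * s) by ring]
    exact mul_ne_zero h1 h2
  have e1 : 1 - s ^ 2 * t ^ 2 = (1 - t * s) * (1 + t * s) := by ring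
  have ha : 2 * t / (1 - s ^ 2 * t ^ 2) =
      (((1 + t * s) / (1 - t * s) - 1) / 2 - (((1 + t * s) / (1 - t * s))⁻¹ - 1) / 2) * s⁻¹ := by
    rw [e1, inv_div]
    field_simp
    ring
  have hb : 2 * t ^ 2 / (1 - s ^ 2 * t ^ 2) =
      (((1 + t * s) / (1 - t * s) - 1) / 2 + (((1 + t * s) / (1 - t * s))⁻¹ - 1) / 2) *
        (s⁻¹ * s⁻¹) := by
    rw [e1, inv_div]
    field_simp
    ring
  rw [pw3, ha, hb, smul_mul_smul_comm]
  module

end cay

section isom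

variable {R : Type} [CommRing R] {ι : Type} [Fintype ι] [DecidableEq ι]

/-- the skew matrix of two vectors -/
def wr (A : Matrix ι ι R) (u w : ι → R) : Matrix ι ι R :=
  vecMulVec u (A *ᵥ w) - vecMulVec w (A *ᵥ u)

theorem dot_symm {A : Matrix ι ι R} (hA : Aᵀ = A) (u w : ι → R) :
    (A *ᵥ u) ⬝ᵥ w = u ⬝ᵥ (A *ᵥ w) := by
  rw [dotProduct_comm, Matrix.dotProduct_mulVec, ← Matrix.mulVec_transpose, hA]
  exact dotProduct_comm _ _

theorem vmv_mul_vmv (a b c d : ι → R) :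
    vecMulVec a b * vecMulVec c d = (b ⬝ᵥ c) • vecMulVec a d := by
  ext x y
  simp only [Matrix.mul_apply, vecMulVec_apply, Matrix.smul_apply, smul_eq_mul, dotProduct,
    Finset.sum_mul]
  exact Finset.sum_congr rfl fun i _ => by ring

theorem wr_sq {A : Matrix ι ι R} (hA : Aᵀ = A) {u w : ι → R} (h : u ⬝ᵥ (A *ᵥ w) = 0) :
    wr A u w * wr A u w = -((u ⬝ᵥ (A *ᵥ u)) • vecMulVec w (A *ᵥ w)) -
      (w ⬝ᵥ (A *ᵥ w)) • vecMulVec u (A *ᵥ u) := by
  have h1 : (A *ᵥ w) ⬝ᵥ u = 0 := by rw [dotProduct_comm, h]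
  have h2 : (A *ᵥ u) ⬝ᵥ w = 0 := by rw [dot_symm hA, h]
  unfold wr
  rw [sub_mul, mul_sub, mul_sub, vmv_mul_vmv, vmv_mul_vmv, vmv_mul_vmv, vmv_mul_vmv, h1, h2,
    dotProduct_comm (A *ᵥ w) w, dotProduct_comm (A *ᵥ u) u, zero_smul, zero_smul]
  abel

theorem wr_cube {A : Matrix ι ι R} (hA : Aᵀ = A) {u w : ι → R} (h : u ⬝ᵥ (A *ᵥ w) = 0) :
    wr A u w * wr A u w * wr A u w =
      (-((u ⬝ᵥ (A *ᵥ u)) * (w ⬝ᵥ (A *ᵥ w)))) • wr A u w := by
  have h1 : (A *ᵥ w) ⬝ᵥ u = 0 := by rw [dotProduct_comm, h]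
  have h2 : (A *ᵥ u) ⬝ᵥ w = 0 := by rw [dot_symm hA, h]
  rw [wr_sq hA h]
  unfold wr
  rw [sub_mul, neg_mul, smul_mul_assoc, smul_mul_assoc, mul_sub, mul_sub, vmv_mul_vmv,
    vmv_mul_vmv, vmv_mul_vmv, vmv_mul_vmv, h1, h2,
    dotProduct_comm (A *ᵥ w) w, dotProduct_comm (A *ᵥ u) u, zero_smul, zero_smul]
  module

theorem wr_skew {A : Matrix ι ι R} (hA : Aᵀ = A) (u w : ι → R) :
    (wr A u w)ᵀ * A + A * wr A u w = 0 := by
  unfold wr
  ext x y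
  have h1 : ∀ a b : ι → R, (vecMulVec a (A *ᵥ b))ᵀ * A = vecMulVec (A *ᵥ b) (A *ᵥ a) := by
    intro a b
    rw [transpose_vecMulVec, vecMulVec_mul, ← Matrix.mulVec_transpose, hA]
  have h2 : ∀ a b : ι → R, A * vecMulVec a (A *ᵥ b) = vecMulVec (A *ᵥ a) (A *ᵥ b) := by
    intro a b
    rw [mul_vecMulVec]
  rw [Matrix.transpose_sub, sub_mul, mul_sub, h1, h1, h2, h2]
  simp only [Matrix.add_apply, Matrix.sub_apply, Matrix.zero_apply]
  ring

/-- isometries of a plane -/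
theorem rot_isom {A Z : Matrix ι ι R} {l a b : R} (hZ : Zᵀ * A + A * Z = 0)
    (h3 : Z * Z * Z = l • Z) (hab : 2 * b - a ^ 2 + l * b ^ 2 = 0) :
    (1 + a • Z + b • (Z * Z))ᵀ * A * (1 + a • Z + b • (Z * Z)) = A := by
  have h1 : Zᵀ * A = -(A * Z) := eq_neg_of_add_eq_zero_left hZ
  have h2 : Zᵀ * Zᵀ * A = A * Z * Z := by
    rw [mul_assoc, h1, mul_neg, ← mul_assoc, h1, neg_mul, neg_neg]
  have h4 : A * Z * Z * Z = l • (A * Z) := by
    rw [mul_assoc, mul_assoc, ← mul_assoc Z, h3, mul_smul_comm]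
  have h5 : A * Z * Z * Z * Z = l • (A * Z * Z) := by
    rw [h4, smul_mul_assoc]
  have e1 : (1 + a • Z + b • (Z * Z))ᵀ * A = A - a • (A * Z) + b • (A * Z * Z) := by
    rw [transpose_add, transpose_add, transpose_smul, transpose_smul, transpose_one,
      transpose_mul, add_mul, add_mul, smul_mul_assoc, smul_mul_assoc, one_mul, h1, h2, smul_neg,
      sub_eq_add_neg]
  rw [e1]
  have e2 : (A - a • (A * Z) + b • (A * Z * Z)) * (1 + a • Z + b • (Z * Z)) =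
      A + (2 * b - a ^ 2) • (A * Z * Z) + (b ^ 2) • (A * Z * Z * Z * Z) := by
    simp only [mul_add, add_mul, sub_mul, mul_one, smul_mul_assoc, mul_smul_comm, smul_smul,
      ← mul_assoc]
    module
  rw [e2, h5, smul_smul]
  have e3 : (2 * b - a ^ 2) • (A * Z * Z) + (b ^ 2 * l) • (A * Z * Z) = 0 := by
    rw [← add_smul, show 2 * b - a ^ 2 + b ^ 2 * l = 2 * b - a ^ 2 + l * b ^ 2 by ring, hab,
      zero_smul]
  rw [add_assoc, e3, add_zero]

end isom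

end

end Pool.Agent.Y127.A
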